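import Pool.Agent.Q287.CV.Stm
import Pool.Agent.Q287.CV.Prb

/-!
# All points of the line are visited often before `K`
-/

set_option autoImplicit false
set_option linter.unusedSectionVars false

namespace Pool.Agent.Q130.CV

open MeasureTheory Finset Q287.CV Filter
open scoped ENNReal

theorem half_le_one_sub_exp {x : ℝ} (h0 : 0 ≤ x) (h1 : x ≤ 1) : x / 2 ≤ 1 - Real.exp (-x) := by
  have h2 : Real.exp (-x) ≤ 1 - x + x ^ 2 / 2 := by
    have h3 : 1 + x + x ^ 2 / 2 ≤ Real.exp x := Real.quadratic_le_exp_of_nonneg h0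
    have h4 : Real.exp (-x) * Real.exp x = 1 := by rw [← Real.exp_add]; simp
    have h5 : 0 < Real.exp (-x) := Real.exp_pos _
    have h6 : Real.exp (-x) * (1 + x + x ^ 2 / 2) ≤ 1 := by
      calc Real.exp (-x) * (1 + x + x ^ 2 / 2) ≤ Real.exp (-x) * Real.exp x := by gcongr
        _ = 1 := h4
    have h7 : 0 < 1 + x + x ^ 2 / 2 := by positivity
    have h8 : 1 ≤ (1 - x + x ^ 2 / 2) * (1 + x + x ^ 2 / 2) := by nlinarith [sq_nonneg (x ^ 2)]
    have h9 : Real.exp (-x) * (1 + x + x ^ 2 / 2) ≤ (1 - x + x ^ 2 / 2) * (1 + x + x ^ 2 / 2) :=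
      h6.trans h8
    exact le_of_mul_le_mul_right h9 h7
  nlinarith

/-- JOB FAR -/
theorem t_FAR (h1 : S_Res) (h2 : S_Gr) (h3 : S_Hitp) (h4 : S_Few) (h5 : S_F2) (h6 : S_LastU)
    (h7 : S_LastL) (h8 : S_FarR) : S_Far := by
  intro V _ _ _ _ G _ hG hV r K N L0 i0 z κ ρ lam μ hκ hρ hρ1 hρl hμ hμl hln hNρ hL0 hLi hzK hzz
    hz1 hz2 hz3
  obtain ⟨Rsym, R0, gsym, gz, gvv, gRs, glap, hlap, hz, htri⟩ := h1 V G hG hV
  obtain ⟨gnn, gle, Rpos, Rnn, Rtri, Radj, Rdist, Rn, Rdeg, gprod, DDle, Hnn, Hle⟩ := h2 V G hG hV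
  have hcard : (2 : ℝ) ≤ Fintype.card V := by exact_mod_cast hV
  set n : ℝ := nn G with hn
  have hn1 : 1 ≤ n := by rw [hn]; unfold nn; linarith
  have hlam : 0 < lam := lt_of_lt_of_le hρ hρl
  set kk : ℕ → ℕ := fun i => ⌈lam * n * (G.degree (z i) : ℝ)⌉₊ with hkk
  have hdeg : ∀ v : V, (1 : ℝ) ≤ (G.degree v : ℝ) := fun v => by
    exact_mod_cast deg_pos G hG hV v
  have hkl : ∀ i, lam * n * (G.degree (z i) : ℝ) ≤ (kk i : ℝ) := fun i => Nat.le_ceil _
  have hku : ∀ i, (kk i : ℝ) ≤ 2 * (lam * n) * (G.degree (z i) : ℝ) := by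
    intro i
    have e1 : (kk i : ℝ) < lam * n * (G.degree (z i) : ℝ) + 1 := by
      apply Nat.ceil_lt_add_one
      have := hdeg (z i)
      positivity
    have e2 : 1 ≤ lam * n * (G.degree (z i) : ℝ) := by
      calc (1 : ℝ) = 1 * 1 := by ring
        _ ≤ lam * n * (G.degree (z i) : ℝ) := by
          gcongr
          exact hdeg (z i)
    linarith
  have hzneK : ∀ i ≤ N, z i ≠ K := by
    intro i hi h
    have e1 := hzK i hi
    rw [h, R0] at e1
    have : 0 < κ / 2 * n := by positivity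
    linarith
  have hzne : ∀ k i, k < i → i ≤ N → z k ≠ z i := by
    intro k i hki hi h
    have e1 := (hzz k i hki hi).1
    rw [h, R0] at e1
    have e2 : (0 : ℝ) < (i : ℝ) - k := by
      have : (k : ℝ) < i := by exact_mod_cast hki
      linarith
    have : 0 < ((i : ℝ) - k) / 2 * (ρ * n) := by positivity
    linarith
  have hRzK : ∀ i ≤ N, 0 < Rs G (z i) K := fun i hi => Rpos _ _ (hzneK i hi)
  -- hitting probabilities
  have hHK : ∀ i ≤ N, Pr G r (Hb K (z i)) ≤ μ := by
    intro i hi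
    rw [(h3 V G hG hV).1 r K (z i) (hzneK i hi).symm]
    have e1 : 0 < Rs G K (z i) := by rw [Rsym]; exact hRzK i hi
    rw [div_le_iff₀ e1]
    exact hz2 i hi
  have hHz : ∀ i j, i < j → j ≤ N → Pr G r (Hb (z j) (z i)) ≤ μ := by
    intro i j hij hj
    rw [(h3 V G hG hV).1 r (z j) (z i) (hzne i j hij hj).symm]
    have e1 : 0 < Rs G (z j) (z i) := Rpos _ _ (hzne i j hij hj).symm
    rw [div_le_iff₀ e1]
    exact hz1 i j hij hj
  have hsumH : ∀ i ≤ N, Pr G r (Hb K (z i)) + ∑ j ∈ Finset.Ioc i N, Pr G r (Hb (z j) (z i)) ≤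
      ((N : ℝ) + 1) * μ := by
    intro i hi
    have e1 : ∑ j ∈ Finset.Ioc i N, Pr G r (Hb (z j) (z i)) ≤ ∑ j ∈ Finset.Ioc i N, μ :=
      Finset.sum_le_sum fun j hj => hHz i j (Finset.mem_Ioc.1 hj).1 (Finset.mem_Ioc.1 hj).2
    rw [Finset.sum_const, nsmul_eq_mul, Nat.card_Ioc] at e1
    have e2 : ((N - i : ℕ) : ℝ) ≤ N := by exact_mod_cast Nat.sub_le N i
    have e3 : ((N - i : ℕ) : ℝ) * μ ≤ N * μ := by gcongr
    have e4 := hHK i hi
    linarith
  -- few visits before `K`
  have hFew : ∀ i ≤ N, Pr G r (Few (z i) K (kk i)) ≤ 5 * lam / κ := by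
    intro i hi
    have e1 := (h4 V G hG hV (z i) K (hzneK i hi) r (kk i)).2.2
    have e2 : gr G (z i) r K / Rs G (z i) K ≤ μ := by
      rw [div_le_iff₀ (hRzK i hi), Rsym]
      exact hz2 i hi
    have e3 : (kk i : ℝ) / ((G.degree (z i) : ℝ) * Rs G (z i) K) ≤ 4 * lam / κ := by
      have e4 : 0 < (G.degree (z i) : ℝ) * Rs G (z i) K :=
        mul_pos (by linarith [hdeg (z i)]) (hRzK i hi)
      rw [div_le_iff₀ e4]
      have e5 : 4 * lam / κ * ((G.degree (z i) : ℝ) * (κ / 2 * n)) ≤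
          4 * lam / κ * ((G.degree (z i) : ℝ) * Rs G (z i) K) := by
        have := hdeg (z i)
        gcongr
        exact hzK i hi
      have e6 : 4 * lam / κ * ((G.degree (z i) : ℝ) * (κ / 2 * n)) =
          2 * (lam * n) * (G.degree (z i) : ℝ) := by
        field_simp
        ring
      rw [e6] at e5
      exact (hku i).trans e5
    have e7 : 5 * lam / κ = lam / κ + 4 * lam / κ := by ring
    rw [e7]
    linarith
  set q : ℕ → ℝ := fun i => Pr G (z i) (Last z kk K N i) with hq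
  -- measurability
  have hmF : ∀ i, MeasurableSet (Few (z i) K (kk i)) := fun i => meas_Few _ _ _
  have hmL : ∀ i, MeasurableSet (Last z kk K N i) := by
    intro i
    have e1 : Last z kk K N i = Few (z i) K (kk i) ∩
        ⋂ j, ⋂ (_ : i < j), ⋂ (_ : j ≤ N), (Few (z j) K (kk j))ᶜ := by
      ext w
      simp [Last]
    rw [e1]
    refine (hmF i).inter ?_
    exact MeasurableSet.iInter fun j => MeasurableSet.iInter fun _ => MeasurableSet.iInter fun _ =>
      (hmF j).compl
  have hdisj : ∀ i j, i ≤ N → j ≤ N → i ≠ j → Disjoint (Last z kk K N i) (Last z kk K N j) := by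
    intro i j hi hj hij
    refine Set.disjoint_left.2 fun w hw hw' => ?_
    rcases lt_or_gt_of_ne hij with h | h
    · exact hw.2 j h hj hw'.1
    · exact hw'.2 i h hi hw.1
  set P : ℕ → ℕ → ℝ := fun i k => Pr G r (Last z kk K N i ∩ Few (z k) K (kk k)) with hP
  have hPsum : ∀ k ≤ N, ∑ i ∈ Finset.range (N + 1), P i k ≤ 5 * lam / κ := by
    intro k hk
    refine le_trans ?_ (hFew k hk)
    have e1 : ∑ i ∈ Finset.range (N + 1), P i k =
        Pr G r (⋃ i ∈ Finset.range (N + 1), (Last z kk K N i ∩ Few (z k) K (kk k))) := by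
      rw [hP]
      unfold Pr
      rw [measureReal_biUnion_finset]
      · intro i hi j hj hij
        have hi' : i < N + 1 := Finset.mem_range.1 hi
        have hj' : j < N + 1 := Finset.mem_range.1 hj
        exact (hdisj i j (by omega) (by omega) hij).mono Set.inter_subset_left Set.inter_subset_left
      · exact fun i _ => (hmL i).inter (hmF k)
    rw [e1]
    refine Pr_mono G r ?_
    intro w hw
    simp only [Set.mem_iUnion] at hw
    obtain ⟨i, _, hw⟩ := hw
    exact hw.2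
  have hL0' : 1 ≤ L0 := by
    by_contra h
    have e0 : L0 = 0 := by omega
    rw [e0, Nat.cast_zero] at hL0
    have : 0 < (lam / ρ) ^ 2 := by positivity
    linarith
  have hLam : 1 ≤ lam / ρ := by rw [le_div_iff₀ hρ]; linarith
  have hmain : ∀ i l, i ≤ N → L0 ≤ l → l ≤ i →
      lam / ρ / (4 * l) * (q i - 20 * (lam / ρ) * lam / (κ * l)) - ((N : ℝ) + 1) * μ ≤
        P i (i - l) := by
    intro i d hi hLd hdi
    set k := i - d with hk
    have hki : k < i := by omega
    have hdk : (i : ℝ) - k = d := by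
      rw [hk, Nat.cast_sub hdi]; ring
    have hd0 : (0 : ℝ) < d := by
      have : 1 ≤ d := by omega
      exact_mod_cast this
    have hdL : lam / ρ ≤ (d : ℝ) := by
      have e1 : (L0 : ℝ) ≤ d := by exact_mod_cast hLd
      have e2 : lam / ρ * 1 ≤ lam / ρ * (lam / ρ) := by gcongr
      nlinarith
    obtain ⟨P', B, hP0, hP1, hB0, hB1, hP2, hB2, hPB⟩ := h7 V G hG hV r K N z kk k i hki hi
      (fun j hj => hzneK j hj) (fun j hij hj => (hzne i j hij hj).symm) (hzne k i hki hi)
    have hR := hzz k i hki hi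
    rw [hdk] at hR
    have hRki : 0 < Rs G (z k) (z i) := Rpos _ _ (hzne k i hki hi)
    have hnp : 0 < n := by linarith
    -- lower bound for `P'`
    have e1 := (h4 V G hG hV (z k) (z i) (hzne k i hki hi) r (kk k)).2.1
    have e2 : lam / ρ / (2 * d) ≤ (kk k : ℝ) / ((G.degree (z k) : ℝ) * Rs G (z k) (z i)) := by
      have hdk' := hdeg (z k)
      have e3 : 0 < (G.degree (z k) : ℝ) * Rs G (z k) (z i) := mul_pos (by linarith) hRki
      rw [le_div_iff₀ e3]
      have e4 : lam / ρ / (2 * d) * ((G.degree (z k) : ℝ) * Rs G (z k) (z i)) ≤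
          lam / ρ / (2 * d) * ((G.degree (z k) : ℝ) * (2 * d * (ρ * n))) := by
        gcongr
        exact hR.2
      have e5 : lam / ρ / (2 * d) * ((G.degree (z k) : ℝ) * (2 * d * (ρ * n))) =
          lam * n * (G.degree (z k) : ℝ) := by
        field_simp
      rw [e5] at e4
      exact e4.trans (hkl k)
    have e6 : lam / ρ / (4 * d) ≤ Pr G r (Few (z k) (z i) (kk k)) := by
      refine le_trans ?_ e1
      have e7 : lam / ρ / (2 * d) ≤ 1 := by
        rw [div_le_one (by positivity)]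
        linarith
      have e8 := half_le_one_sub_exp (x := lam / ρ / (2 * d)) (by positivity) e7
      have e9 : lam / ρ / (4 * d) = lam / ρ / (2 * d) / 2 := by
        field_simp
        norm_num
      rw [e9]
      refine e8.trans ?_
      have e10 : Real.exp (-((kk k : ℝ) / ((G.degree (z k) : ℝ) * Rs G (z k) (z i)))) ≤
          Real.exp (-(lam / ρ / (2 * d))) := Real.exp_le_exp.2 (by linarith)
      linarith
    have e11 := hsumH i hi
    have hPlow : lam / ρ / (4 * d) - ((N : ℝ) + 1) * μ ≤ P' := by linarith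
    -- lower bound for `B`
    have e12 := h5 V G hG hV (z i) (z k) K (hzne k i hki hi).symm (hzneK i hi)
      (hzneK k (by omega)) (kk i)
    have hdi' := hdeg (z i)
    have e13 : (kk i : ℝ) / ((G.degree (z i) : ℝ) * Rs G (z i) (z k)) ≤ 4 * (lam / ρ) / d := by
      rw [Rsym (z i) (z k)]
      have e3 : 0 < (G.degree (z i) : ℝ) * Rs G (z k) (z i) := mul_pos (by linarith) hRki
      rw [div_le_iff₀ e3]
      have e4 : 4 * (lam / ρ) / d * ((G.degree (z i) : ℝ) * ((d : ℝ) / 2 * (ρ * n))) ≤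
          4 * (lam / ρ) / d * ((G.degree (z i) : ℝ) * Rs G (z k) (z i)) := by
        gcongr
        exact hR.1
      have e5 : 4 * (lam / ρ) / d * ((G.degree (z i) : ℝ) * ((d : ℝ) / 2 * (ρ * n))) =
          2 * (lam * n) * (G.degree (z i) : ℝ) := by
        field_simp
        ring
      rw [e5] at e4
      exact (hku i).trans e4
    have e14 : gr G (z i) (z k) K / Rs G (z i) K +
        (kk i : ℝ) / ((G.degree (z i) : ℝ) * Rs G (z i) K) ≤ 5 * lam / κ := by
      have e2 : gr G (z i) (z k) K / Rs G (z i) K ≤ μ := by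
        rw [div_le_iff₀ (hRzK i hi), Rsym (z i) K]
        exact hz3 k i hki hi
      have e3 : (kk i : ℝ) / ((G.degree (z i) : ℝ) * Rs G (z i) K) ≤ 4 * lam / κ := by
        have e4 : 0 < (G.degree (z i) : ℝ) * Rs G (z i) K :=
          mul_pos (by linarith [hdeg (z i)]) (hRzK i hi)
        rw [div_le_iff₀ e4]
        have e5 : 4 * lam / κ * ((G.degree (z i) : ℝ) * (κ / 2 * n)) ≤
            4 * lam / κ * ((G.degree (z i) : ℝ) * Rs G (z i) K) := by
          gcongr
          exact hzK i hi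
        have e6 : 4 * lam / κ * ((G.degree (z i) : ℝ) * (κ / 2 * n)) =
            2 * (lam * n) * (G.degree (z i) : ℝ) := by
          field_simp
          ring
        rw [e6] at e5
        exact (hku i).trans e5
      have e7 : 5 * lam / κ = lam / κ + 4 * lam / κ := by ring
      rw [e7]
      linarith
    have e15 : Pr G (z i) (Few (z i) K (kk i) ∩ Hb (z k) K) ≤
        20 * (lam / ρ) * lam / (κ * d) := by
      refine e12.trans ?_
      have e16 : 20 * (lam / ρ) * lam / (κ * d) = 4 * (lam / ρ) / d * (5 * lam / κ) := by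
        field_simp
        ring
      rw [e16]
      have e17 : 0 ≤ gr G (z i) (z k) K / Rs G (z i) K +
          (kk i : ℝ) / ((G.degree (z i) : ℝ) * Rs G (z i) K) := by
        have a1 := gnn (z i) (z k) K
        have a2 := hRzK i hi
        positivity
      gcongr
    have hBlow : q i - 20 * (lam / ρ) * lam / (κ * d) ≤ B := by linarith
    -- conclusion
    have hc : 0 ≤ lam / ρ / (4 * d) := by positivity
    have f1 : (lam / ρ / (4 * d) - ((N : ℝ) + 1) * μ) * B ≤ P' * B :=
      mul_le_mul_of_nonneg_right hPlow hB0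
    have f2 : ((N : ℝ) + 1) * μ * B ≤ ((N : ℝ) + 1) * μ := by
      have : 0 ≤ ((N : ℝ) + 1) * μ := by positivity
      nlinarith
    have f3 : lam / ρ / (4 * d) * (q i - 20 * (lam / ρ) * lam / (κ * d)) ≤
        lam / ρ / (4 * d) * B := mul_le_mul_of_nonneg_left hBlow hc
    show _ ≤ Pr G r (Last z kk K N i ∩ Few (z k) K (kk k))
    have f4 : (lam / ρ / (4 * d) - ((N : ℝ) + 1) * μ) * B =
        lam / ρ / (4 * d) * B - ((N : ℝ) + 1) * μ * B := by ring
    linarith
  have hsumq := h8 N L0 i0 κ ρ lam μ q P hκ hρ hρ1 hρl hμ hNρ hL0 hLi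
    (fun i _ => Pr_nonneg G _ _) (fun i k => Pr_nonneg G _ _) hPsum hmain
  have hLastr : ∀ i ≤ N, Pr G r (Last z kk K N i) ≤ q i + ((N : ℝ) + 1) * μ := by
    intro i hi
    have e1 := h6 V G hG hV r K N z kk i hi (fun j hj => hzneK j hj)
      (fun j hij hj => (hzne i j hij hj).symm)
    have e2 := hsumH i hi
    show _ ≤ Pr G (z i) (Last z kk K N i) + _
    linarith
  -- the union
  have hsub : {w : ℕ → V | ∃ i ≤ N, w ∈ Few (z i) K (kk i)} ⊆
      (⋃ i ∈ (Finset.range i0).filter (fun i => i ≤ N), Few (z i) K (kk i)) ∪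
        ⋃ i ∈ Finset.Icc i0 N, Last z kk K N i := by
    intro w hw
    obtain ⟨i, hi, hwi⟩ := hw
    classical
    have hne : ((Finset.range (N + 1)).filter (fun i => w ∈ Few (z i) K (kk i))).Nonempty :=
      ⟨i, by simp [hwi]; omega⟩
    obtain ⟨m, hm, hmax⟩ := Finset.exists_max_image _ (fun i => i) hne
    rw [Finset.mem_filter, Finset.mem_range] at hm
    by_cases hmi : m < i0
    · left
      simp only [Set.mem_iUnion]
      exact ⟨m, by simp [hmi]; omega, hm.2⟩
    · right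
      simp only [Set.mem_iUnion]
      refine ⟨m, by rw [Finset.mem_Icc]; omega, hm.2, fun j hj hjN hwj => ?_⟩
      have := hmax j (by rw [Finset.mem_filter, Finset.mem_range]; exact ⟨by omega, hwj⟩)
      omega
  have g1 : Pr G r {w : ℕ → V | ∃ i ≤ N, w ∈ Few (z i) K (kk i)} ≤
      ∑ i ∈ (Finset.range i0).filter (fun i => i ≤ N), Pr G r (Few (z i) K (kk i)) +
        ∑ i ∈ Finset.Icc i0 N, Pr G r (Last z kk K N i) := by
    refine (Pr_mono G r hsub).trans ((Pr_union_le G r _ _).trans ?_)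
    exact add_le_add (Pr_biUnion_le G r _ _) (Pr_biUnion_le G r _ _)
  have g2 : ∑ i ∈ (Finset.range i0).filter (fun i => i ≤ N), Pr G r (Few (z i) K (kk i)) ≤
      5 * i0 * lam / κ := by
    have e1 : ∑ i ∈ (Finset.range i0).filter (fun i => i ≤ N), Pr G r (Few (z i) K (kk i)) ≤
        ∑ i ∈ (Finset.range i0).filter (fun i => i ≤ N), 5 * lam / κ :=
      Finset.sum_le_sum fun i hi => hFew i (Finset.mem_filter.1 hi).2
    rw [Finset.sum_const, nsmul_eq_mul] at e1
    have e2 : (((Finset.range i0).filter (fun i => i ≤ N)).card : ℝ) ≤ i0 := by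
      have := Finset.card_filter_le (Finset.range i0) (fun i => i ≤ N)
      rw [Finset.card_range] at this
      exact_mod_cast this
    have e3 : (((Finset.range i0).filter (fun i => i ≤ N)).card : ℝ) * (5 * lam / κ) ≤
        i0 * (5 * lam / κ) := by gcongr
    have e4 : (i0 : ℝ) * (5 * lam / κ) = 5 * i0 * lam / κ := by ring
    rw [e4] at e3
    exact e1.trans e3
  have g3 : ∑ i ∈ Finset.Icc i0 N, Pr G r (Last z kk K N i) ≤
      (120 / κ + 32 * μ / ρ ^ 3) / Real.log (((i0 : ℝ) + 1) / L0) + 4 * μ / ρ ^ 2 := by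
    have e1 : ∑ i ∈ Finset.Icc i0 N, Pr G r (Last z kk K N i) ≤
        ∑ i ∈ Finset.Icc i0 N, (q i + ((N : ℝ) + 1) * μ) :=
      Finset.sum_le_sum fun i hi => hLastr i (Finset.mem_Icc.1 hi).2
    rw [Finset.sum_add_distrib, Finset.sum_const, nsmul_eq_mul, Nat.card_Icc] at e1
    have e2 : ((N + 1 - i0 : ℕ) : ℝ) ≤ (N : ℝ) + 1 := by
      have : N + 1 - i0 ≤ N + 1 := Nat.sub_le _ _
      exact_mod_cast this
    have e3 : ((N + 1 - i0 : ℕ) : ℝ) * (((N : ℝ) + 1) * μ) ≤ 4 * μ / ρ ^ 2 := by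
      have e4 : ((N : ℝ) + 1) * ρ ≤ 2 := by
        have : (N : ℝ) * ρ + ρ ≤ 2 := by linarith
        linarith
      have e5 : (((N : ℝ) + 1) * ρ) ^ 2 ≤ 2 ^ 2 := by gcongr
      have e6 : ((N + 1 - i0 : ℕ) : ℝ) * (((N : ℝ) + 1) * μ) ≤
          ((N : ℝ) + 1) * (((N : ℝ) + 1) * μ) := by gcongr
      refine e6.trans ?_
      rw [le_div_iff₀ (by positivity)]
      have e7 : ((N : ℝ) + 1) * (((N : ℝ) + 1) * μ) * ρ ^ 2 = (((N : ℝ) + 1) * ρ) ^ 2 * μ := by ring
      rw [e7]
      nlinarith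
    linarith
  linarith

end Pool.Agent.Q130.CV
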