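import Pool.Agent.Q287.CV.Stm

/-!
# Resistances and Green functions: algebra and inequalities
-/

set_option autoImplicit false
set_option linter.unusedSectionVars false

namespace Pool.Agent.Q130.CV

open MeasureTheory Finset Q287.CV Matrix
open scoped ENNReal

section

variable {V : Type} [Fintype V] [DecidableEq V] (G : SimpleGraph V) [DecidableRel G.Adj]

theorem QQ_unit (hG : G.Connected) (h2 : 2 ≤ Fintype.card V) :
    IsUnit (G.lapMatrix ℝ + Matrix.of (fun _ _ => (1 : ℝ))) := by
  rw [← Matrix.mulVec_injective_iff_isUnit]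
  have hcard : (0 : ℝ) < Fintype.card V := by
    have : 0 < Fintype.card V := by omega
    exact_mod_cast this
  have hJ : ∀ x : V → ℝ, (Matrix.of (fun _ _ : V => (1 : ℝ))) *ᵥ x = fun _ => ∑ y, x y := by
    intro x
    funext v
    simp [Matrix.mulVec, dotProduct]
  have hL : ∀ x : V → ℝ, ∑ v, (G.lapMatrix ℝ *ᵥ x) v = 0 := by
    intro x
    have h1 : (fun _ : V => (1 : ℝ)) ⬝ᵥ (G.lapMatrix ℝ *ᵥ x) = 0 := by
      rw [Matrix.dotProduct_mulVec]
      have h3 : (fun _ : V => (1 : ℝ)) ᵥ* G.lapMatrix ℝ = 0 := by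
        rw [← Matrix.mulVec_transpose, (G.isSymm_lapMatrix (R := ℝ)).eq]
        exact G.lapMatrix_mulVec_const_eq_zero
      rw [h3, zero_dotProduct]
    simpa [dotProduct] using h1
  have key : ∀ x : V → ℝ, (G.lapMatrix ℝ + Matrix.of (fun _ _ => (1 : ℝ))) *ᵥ x = 0 → x = 0 := by
    intro x hx
    rw [Matrix.add_mulVec, hJ] at hx
    have h1 : ∑ v, ((G.lapMatrix ℝ *ᵥ x) v + ∑ y, x y) = 0 := by
      refine Finset.sum_eq_zero fun v _ => ?_
      exact congrFun hx v
    rw [Finset.sum_add_distrib, hL, zero_add, Finset.sum_const, nsmul_eq_mul, Finset.card_univ] at h1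
    have h3 : ∑ y, x y = 0 := by
      rcases mul_eq_zero.1 h1 with h | h
      · exact absurd h hcard.ne'
      · exact h
    rw [h3] at hx
    have h4 : G.lapMatrix ℝ *ᵥ x = 0 := by
      rw [← hx]; funext v; simp
    rw [SimpleGraph.lapMatrix_mulVec_eq_zero_iff_forall_reachable] at h4
    have h5 : ∀ i j, x i = x j := fun i j => h4 i j (hG.preconnected i j)
    funext i
    have h6 : ∑ y, x y = Fintype.card V * x i := by
      rw [Finset.sum_congr rfl fun y _ => h5 y i, Finset.sum_const, nsmul_eq_mul, Finset.card_univ]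
    rw [h6] at h3
    rcases mul_eq_zero.1 h3 with h | h
    · exact absurd h hcard.ne'
    · exact h
  intro x y hxy
  have := key (x - y) (by rw [Matrix.mulVec_sub]; exact sub_eq_zero.2 hxy)
  exact sub_eq_zero.1 this

theorem QQ_mul (hG : G.Connected) (h2 : 2 ≤ Fintype.card V) :
    (G.lapMatrix ℝ + Matrix.of (fun _ _ => (1 : ℝ))) * QQ G = 1 :=
  Matrix.mul_nonsing_inv _ ((Matrix.isUnit_iff_isUnit_det _).1 (QQ_unit G hG h2))

theorem QQ_symm (x y : V) : QQ G x y = QQ G y x := by
  have h1 : (G.lapMatrix ℝ + Matrix.of (fun _ _ => (1 : ℝ)))ᵀ =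
      G.lapMatrix ℝ + Matrix.of (fun _ _ => (1 : ℝ)) := by
    rw [Matrix.transpose_add, (G.isSymm_lapMatrix (R := ℝ)).eq]
    rfl
  have h3 : (QQ G)ᵀ = QQ G := by
    unfold QQ
    rw [Matrix.transpose_nonsing_inv, h1]
  have := congrFun (congrFun h3 y) x
  rw [Matrix.transpose_apply] at this
  exact this

theorem QQ_one (hG : G.Connected) (h2 : 2 ≤ Fintype.card V) (v : V) :
    ∑ w, QQ G w v = (Fintype.card V : ℝ)⁻¹ := by
  have hcard : (0 : ℝ) < Fintype.card V := by
    have : 0 < Fintype.card V := by omega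
    exact_mod_cast this
  have h1 := QQ_mul G hG h2
  have h3 : (fun _ : V => (1 : ℝ)) ᵥ* ((G.lapMatrix ℝ + Matrix.of (fun _ _ => (1 : ℝ))) * QQ G) =
      (fun _ : V => (1 : ℝ)) ᵥ* (1 : Matrix V V ℝ) := by rw [h1]
  rw [← Matrix.vecMul_vecMul, Matrix.vecMul_one, Matrix.vecMul_add] at h3
  have h4 : (fun _ : V => (1 : ℝ)) ᵥ* G.lapMatrix ℝ = 0 := by
    rw [← Matrix.mulVec_transpose, (G.isSymm_lapMatrix (R := ℝ)).eq]
    exact G.lapMatrix_mulVec_const_eq_zero
  have h5 : (fun _ : V => (1 : ℝ)) ᵥ* (Matrix.of (fun _ _ : V => (1 : ℝ))) =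
      fun _ => (Fintype.card V : ℝ) := by
    funext w
    simp [Matrix.vecMul, dotProduct]
  rw [h4, h5, zero_add] at h3
  have h6 := congrFun h3 v
  simp only [Matrix.vecMul, dotProduct] at h6
  rw [← Finset.mul_sum] at h6
  field_simp
  linarith

/-- the equation for the Green function -/
theorem QQ_lap (hG : G.Connected) (h2 : 2 ≤ Fintype.card V) (x v : V) :
    (G.degree x : ℝ) * QQ G x v - ∑ y ∈ G.neighborFinset x, QQ G y v =
      (if x = v then 1 else 0) - (Fintype.card V : ℝ)⁻¹ := by
  have h1 := congrFun (congrFun (QQ_mul G hG h2) x) v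
  rw [Matrix.add_mul, Matrix.add_apply, Matrix.one_apply] at h1
  have h3 : (G.lapMatrix ℝ * QQ G) x v = (G.lapMatrix ℝ *ᵥ (fun w => QQ G w v)) x := rfl
  have h4 : ((Matrix.of (fun _ _ : V => (1 : ℝ))) * QQ G) x v = ∑ w, QQ G w v := by
    simp [Matrix.mul_apply]
  rw [h3, SimpleGraph.lapMatrix_mulVec_apply, h4, QQ_one G hG h2] at h1
  linarith

end

/-- JOB RES -/
theorem t_RES : S_Res := by
  intro V _ _ G _ hG h2
  have hs := QQ_symm G
  have hgr : ∀ z v x : V, (G.degree x : ℝ) * gr G z x v - ∑ y ∈ G.neighborFinset x, gr G z y v =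
      (if x = v then 1 else 0) - (if x = z then 1 else 0) := by
    intro z v x
    have h1 := QQ_lap G hG h2 x v
    have h3 := QQ_lap G hG h2 x z
    unfold gr
    have h4 : ∑ y ∈ G.neighborFinset x, (QQ G y v - QQ G y z - QQ G z v + QQ G z z) =
        ∑ y ∈ G.neighborFinset x, QQ G y v - ∑ y ∈ G.neighborFinset x, QQ G y z -
          (G.degree x : ℝ) * QQ G z v + (G.degree x : ℝ) * QQ G z z := by
      simp only [Finset.sum_add_distrib, Finset.sum_sub_distrib, Finset.sum_const, nsmul_eq_mul,
        G.card_neighborFinset_eq_degree]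
    rw [h4]
    linarith
  refine ⟨?_, ?_, ?_, ?_, ?_, ?_, hgr, ?_, ?_, ?_⟩
  · intro x y
    unfold Rs
    ring
  · intro x
    unfold Rs
    ring
  · intro z x v
    unfold gr
    rw [hs x v, hs x z, hs z v]
    ring
  · intro z v
    unfold gr
    ring
  · intro z v
    unfold gr Rs
    ring
  · intro z x v
    unfold gr Rs
    rw [hs v x, hs z x, hs z v]
    ring
  · intro z x
    unfold Hit
    rw [Finset.mul_sum, Finset.sum_comm, ← Finset.sum_sub_distrib]
    have h1 : ∀ v : V, (G.degree x : ℝ) * ((G.degree v : ℝ) * gr G z x v) -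
        ∑ y ∈ G.neighborFinset x, (G.degree v : ℝ) * gr G z y v =
        (if x = v then (G.degree v : ℝ) else 0) - (if x = z then 1 else 0) * (G.degree v : ℝ) := by
      intro v
      rw [← Finset.mul_sum]
      have := hgr z v x
      have h3 : (G.degree x : ℝ) * ((G.degree v : ℝ) * gr G z x v) -
        (G.degree v : ℝ) * ∑ y ∈ G.neighborFinset x, gr G z y v = (G.degree v : ℝ) *
          ((G.degree x : ℝ) * gr G z x v - ∑ y ∈ G.neighborFinset x, gr G z y v) := by ring
      rw [h3, this]
      split_ifs <;> ring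
    rw [Finset.sum_congr rfl fun v _ => h1 v, Finset.sum_sub_distrib, ← Finset.mul_sum]
    simp only [Finset.sum_ite_eq, Finset.mem_univ, if_true]
    unfold DD
    split_ifs <;> ring
  · intro z
    unfold Hit gr
    refine Finset.sum_eq_zero fun v _ => ?_
    ring
  · intro r x y
    unfold Hit DD
    rw [← Finset.sum_add_distrib, ← Finset.sum_sub_distrib, Finset.sum_mul]
    refine Finset.sum_congr rfl fun v _ => ?_
    unfold gr
    ring

/-- JOB GR -/
theorem t_GR (h : S_Res) : S_Gr := by
  intro V _ _ G _ hG h2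
  obtain ⟨Rsym, R0, gsym, gz, gvv, gRs, glap, hlap, hz, htri⟩ := h V G hG h2
  have hcard : (2 : ℝ) ≤ Fintype.card V := by exact_mod_cast h2
  have gnn : ∀ z x v : V, 0 ≤ gr G z x v := by
    intro z x v
    have := max_principle G hG h2 {z} ⟨z, rfl⟩ (fun x => - gr G z x v) ?_ ?_ x
    · linarith
    · intro x hx
      have hxz : x ≠ z := hx
      have h1 := glap z v x
      rw [if_neg hxz] at h1
      simp only [Finset.sum_neg_distrib]
      have : (0 : ℝ) ≤ if x = v then 1 else 0 := by split_ifs <;> norm_num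
      linarith
    · intro x hx
      have hxz : x = z := hx
      rw [hxz, gz]
      simp
  have gle : ∀ z x v : V, gr G z x v ≤ gr G z v v := by
    intro z x v
    have := max_principle G hG h2 {v} ⟨v, rfl⟩ (fun x => gr G z x v - gr G z v v) ?_ ?_ x
    · linarith
    · intro x hx
      have hxv : x ≠ v := hx
      have h1 := glap z v x
      rw [if_neg hxv] at h1
      simp only [Finset.sum_sub_distrib, Finset.sum_const, nsmul_eq_mul,
        G.card_neighborFinset_eq_degree]
      have : (0 : ℝ) ≤ if x = z then 1 else 0 := by split_ifs <;> norm_num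
      linarith
    · intro x hx
      have hxv : x = v := hx
      rw [hxv]
      simp
  have Rpos : ∀ x y : V, x ≠ y → 0 < Rs G x y := by
    intro x y hxy
    by_contra hc
    push Not at hc
    have h0 : ∀ w, gr G y w x = 0 := by
      intro w
      have h1 := gle y w x
      rw [gvv] at h1
      exact le_antisymm (h1.trans hc) (gnn y w x)
    have h1 := glap y x x
    rw [if_pos rfl, if_neg hxy, h0 x] at h1
    simp only [h0, Finset.sum_const_zero] at h1
    norm_num at h1
  have Rnn : ∀ x y : V, 0 ≤ Rs G x y := by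
    intro x y
    by_cases hxy : x = y
    · rw [hxy, R0]
    · exact (Rpos x y hxy).le
  have Rtri : ∀ x y z : V, Rs G x y ≤ Rs G x z + Rs G z y := by
    intro x y z
    have h1 := gnn z x y
    rw [gRs z x y, Rsym y z] at h1
    linarith
  have Radj : ∀ x y : V, G.Adj x y → Rs G x y ≤ 1 := by
    intro x y hxy
    have h1 := glap y x x
    rw [if_pos rfl, if_neg hxy.ne] at h1
    have h3 : (G.degree x : ℝ) * gr G y x x - ∑ w ∈ G.neighborFinset x, gr G y w x =
        ∑ w ∈ G.neighborFinset x, (gr G y x x - gr G y w x) := by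
      rw [Finset.sum_sub_distrib, Finset.sum_const, nsmul_eq_mul, G.card_neighborFinset_eq_degree]
    rw [h3] at h1
    have h4 : gr G y x x - gr G y y x ≤ ∑ w ∈ G.neighborFinset x, (gr G y x x - gr G y w x) :=
      Finset.single_le_sum (f := fun w => gr G y x x - gr G y w x)
        (fun w _ => sub_nonneg.2 (gle y w x)) (by rw [SimpleGraph.mem_neighborFinset]; exact hxy)
    rw [gz, gvv] at h4
    rw [gvv] at h1
    linarith
  have Rwalk : ∀ {x y : V} (p : G.Walk x y), Rs G x y ≤ p.length := by
    intro x y p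
    induction p with
    | nil => rw [R0]; simp
    | @cons u w v hadj p ih =>
      have h1 := Rtri u v w
      have h3 := Radj u w hadj
      rw [SimpleGraph.Walk.length_cons]
      push_cast
      linarith
  refine ⟨gnn, gle, Rpos, Rnn, Rtri, Radj, ?_, ?_, ?_, ?_, ?_, ?_, ?_⟩
  · intro x y
    obtain ⟨p, hp⟩ := hG.exists_walk_length_eq_dist x y
    rw [← hp]
    exact Rwalk p
  · intro x y
    obtain ⟨p⟩ := hG.preconnected x y
    have h1 := Rwalk p.toPath.1
    have h3 := p.toPath.2.length_lt
    have h4 : ((p.toPath.1.length : ℕ) : ℝ) + 1 ≤ Fintype.card V := by exact_mod_cast h3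
    unfold nn
    linarith
  · intro x y hxy
    have h1 := glap y x x
    rw [if_pos rfl, if_neg hxy, gvv] at h1
    have h3 : 0 ≤ ∑ w ∈ G.neighborFinset x, gr G y w x := Finset.sum_nonneg fun w _ => gnn _ _ _
    linarith
  · intro x r K v
    have := max_principle G hG h2 {x, K} ⟨x, by simp⟩
      (fun r => gr G x r K * gr G x K v - gr G x r v * Rs G K x) ?_ ?_ r
    · linarith
    · intro r hr
      have hrx : r ≠ x := fun h => hr (by simp [h])
      have hrK : r ≠ K := fun h => hr (by simp [h])
      have h1 := glap x v r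
      have h3 := glap x K r
      rw [if_neg hrx] at h1 h3
      rw [if_neg hrK] at h3
      simp only [Finset.sum_sub_distrib, ← Finset.sum_mul]
      have h4 : (0 : ℝ) ≤ if r = v then 1 else 0 := by split_ifs <;> norm_num
      have h5 := Rnn K x
      have h6 : 0 ≤ (if r = v then (1 : ℝ) else 0) * Rs G K x := mul_nonneg h4 h5
      have h7 : (if r = v then (1 : ℝ) else 0) =
        (G.degree r : ℝ) * gr G x r v - ∑ y ∈ G.neighborFinset r, gr G x y v := by linarith
      rw [h7] at h6
      have h8 : ∑ y ∈ G.neighborFinset r, gr G x y K = (G.degree r : ℝ) * gr G x r K := by linarith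
      rw [h8]
      linarith
    · intro r hr
      rcases hr with h | h
      · rw [h, gz, gz]; simp
      · have h : r = K := h
        rw [h, gvv]
        linarith
  · have h1 : ∀ v, (G.degree v : ℝ) ≤ nn G := by
      intro v
      have h3 := G.degree_lt_card_verts v
      have h4 : ((G.degree v : ℕ) : ℝ) + 1 ≤ Fintype.card V := by exact_mod_cast h3
      unfold nn
      linarith
    have h3 : DD G ≤ ∑ v : V, nn G := Finset.sum_le_sum fun v _ => h1 v
    rw [Finset.sum_const, nsmul_eq_mul, Finset.card_univ] at h3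
    have h4 : (Fintype.card V : ℝ) = nn G + 1 := by unfold nn; ring
    have h5 : 1 ≤ nn G := by unfold nn; linarith
    rw [h4] at h3
    nlinarith
  · intro x y
    unfold Hit
    exact Finset.sum_nonneg fun v _ => mul_nonneg (by positivity) (gnn _ _ _)
  · intro x y
    unfold Hit DD
    rw [Finset.sum_mul]
    refine Finset.sum_le_sum fun v _ => ?_
    have h1 := gle y v x
    rw [gvv, gsym] at h1
    exact mul_le_mul_of_nonneg_left h1 (by positivity)

end Pool.Agent.Q130.CV
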