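import Pool.Agent.Q287.CV.Stm
import Pool.Agent.Q287.CV.Prb

/-!
# The strong Markov property; cover time and cover cost from the law of the path
-/

set_option autoImplicit false
set_option linter.unusedSectionVars false

namespace Pool.Agent.Q130.CV

open MeasureTheory Finset Q287.CV Filter
open scoped ENNReal

section

variable {V : Type} [Fintype V] [DecidableEq V] [MeasurableSpace V] [DiscreteMeasurableSpace V]
  (G : SimpleGraph V) [DecidableRel G.Adj]

/-- prepend a point to a path -/
def cns (x : V) (w : ℕ → V) : ℕ → V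
  | 0 => x
  | s + 1 => w s

theorem cns_sh {x : V} {w : ℕ → V} (h : w 0 = x) : cns x (sh 1 w) = w := by
  funext s
  cases s with
  | zero => exact h.symm
  | succ s =>
    show w (1 + s) = w (s + 1)
    rw [add_comm]

theorem Pr_univ (x : V) : Pr G x Set.univ = 1 := by
  unfold Pr
  exact probReal_univ

theorem Pr_of_ae (x : V) {A : Set (ℕ → V)} (h : ∀ᵐ w ∂(Lw G x), w ∈ A) : Pr G x A = 1 := by
  rw [← Pr_univ G x]
  refine Pr_ae_congr G x ?_
  filter_upwards [h] with w hw
  exact ⟨fun _ => Set.mem_univ w, fun _ => hw⟩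

theorem Pr_of_ae_not (x : V) {A : Set (ℕ → V)} (h : ∀ᵐ w ∂(Lw G x), w ∉ A) : Pr G x A = 0 := by
  have : Pr G x A = Pr G x ∅ := by
    refine Pr_ae_congr G x ?_
    filter_upwards [h] with w hw
    exact ⟨fun h => absurd h hw, fun h => absurd h (Set.notMem_empty w)⟩
  rw [this]
  unfold Pr
  exact measureReal_empty

/-- the Markov property at a fixed time -/
theorem stop_fixed (h : S_One) (hG : G.Connected) (h2 : 2 ≤ Fintype.card V) (z : V)
    {B : Set (ℕ → V)} (hB : MeasurableSet B) : ∀ (t : ℕ) (x : V) (D : Set (ℕ → V)), Det t D →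
    (∀ w ∈ D, w t = z) → Pr G x {w | w ∈ D ∧ sh t w ∈ B} = Pr G x D * Pr G z B := by
  intro t
  induction t with
  | zero =>
    intro x D hD hz
    have h0 := (h V G hG h2 x).1
    have hsh : ∀ w : ℕ → V, sh 0 w = w := by
      intro w
      funext s
      show w (0 + s) = w s
      rw [zero_add]
    by_cases hc : (fun _ : ℕ => x) ∈ D
    · have hxz : x = z := hz _ hc
      have hD1 : ∀ᵐ w ∂(Lw G x), w ∈ D := by
        filter_upwards [h0] with w hw
        refine hD (fun _ => x) w ?_ hc
        intro s hs
        have : s = 0 := by omega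
        rw [this, hw]
      rw [Pr_of_ae G x hD1, one_mul, ← hxz]
      refine Pr_ae_congr G x ?_
      filter_upwards [hD1] with w hw
      show (w ∈ D ∧ sh 0 w ∈ B) ↔ w ∈ B
      rw [hsh]
      exact ⟨fun a => a.2, fun a => ⟨hw, a⟩⟩
    · have hD1 : ∀ᵐ w ∂(Lw G x), w ∉ D := by
        filter_upwards [h0] with w hw hwD
        refine hc (hD w (fun _ => x) ?_ hwD)
        intro s hs
        have : s = 0 := by omega
        rw [this, hw]
      rw [Pr_of_ae_not G x hD1, zero_mul]
      refine Pr_of_ae_not G x ?_
      filter_upwards [hD1] with w hw hw2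
      exact hw hw2.1
  | succ t ih =>
    intro x D hD hz
    have h0 := (h V G hG h2 x).1
    have h1 := (h V G hG h2 x).2
    set D' : Set (ℕ → V) := {w' | cns x w' ∈ D} with hD'
    have hDet : Det t D' := by
      intro w w' hww hw
      refine hD (cns x w) (cns x w') ?_ hw
      intro s hs
      cases s with
      | zero => rfl
      | succ s => exact hww s (by omega)
    have hz' : ∀ w ∈ D', w t = z := fun w hw => hz _ hw
    have hshs : ∀ w : ℕ → V, sh (t + 1) w = sh t (sh 1 w) := by
      intro w
      funext s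
      show w (t + 1 + s) = w (1 + (t + s))
      congr 1
      omega
    have e1 : Pr G x {w | w ∈ D ∧ sh (t + 1) w ∈ B} =
        Pr G x {w | sh 1 w ∈ {w' | w' ∈ D' ∧ sh t w' ∈ B}} := by
      refine Pr_ae_congr G x ?_
      filter_upwards [h0] with w hw
      show (w ∈ D ∧ sh (t + 1) w ∈ B) ↔ (cns x (sh 1 w) ∈ D ∧ sh t (sh 1 w) ∈ B)
      rw [hshs, cns_sh hw]
    have e2 : Pr G x D = Pr G x {w | sh 1 w ∈ D'} := by
      refine Pr_ae_congr G x ?_
      filter_upwards [h0] with w hw
      show w ∈ D ↔ cns x (sh 1 w) ∈ D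
      rw [cns_sh hw]
    have hm : MeasurableSet {w' : ℕ → V | w' ∈ D' ∧ sh t w' ∈ B} :=
      hDet.measurableSet.inter (measurable_sh t hB)
    rw [e1, e2, h1 _ hm, h1 _ hDet.measurableSet, Finset.sum_congr rfl fun y _ => ih y D' hDet hz',
      ← Finset.sum_mul]
    ring

/-- the same in `ℝ≥0∞` -/
theorem stop_fixed' (h : S_One) (hG : G.Connected) (h2 : 2 ≤ Fintype.card V) (z : V)
    {B : Set (ℕ → V)} (hB : MeasurableSet B) (t : ℕ) (x : V) (D : Set (ℕ → V)) (hD : Det t D)
    (hz : ∀ w ∈ D, w t = z) : Lw G x {w | w ∈ D ∧ sh t w ∈ B} = Lw G x D * Lw G z B := by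
  rw [Lw_eq_ofReal, Lw_eq_ofReal, Lw_eq_ofReal, stop_fixed G h hG h2 z hB t x D hD hz,
    ENNReal.ofReal_mul (Pr_nonneg G x D)]

end

/-- JOB STOP -/
theorem t_STOP (h : S_One) : S_Stop := by
  intro V _ _ _ _ G _ hG h2 x z D hD hdis hz B hB
  have hU : {w : ℕ → V | ∃ t, w ∈ D t ∧ sh t w ∈ B} = ⋃ t, {w | w ∈ D t ∧ sh t w ∈ B} := by
    ext w; simp
  have e1 : Lw G x (⋃ t, {w | w ∈ D t ∧ sh t w ∈ B}) = Lw G x (⋃ t, D t) * Lw G z B := by
    rw [measure_iUnion, measure_iUnion, ← ENNReal.tsum_mul_right]
    · exact tsum_congr fun t => stop_fixed' G h hG h2 z hB t x (D t) (hD t) (hz t)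
    · intro s t hst
      exact hdis s t hst
    · exact fun t => (hD t).measurableSet
    · intro s t hst
      exact (hdis s t hst).mono (fun w hw => hw.1) (fun w hw => hw.1)
    · exact fun t => (hD t).measurableSet.inter (measurable_sh t hB)
  rw [hU]
  unfold Pr
  rw [measureReal_def, e1, ENNReal.toReal_mul]
  rfl

section

variable {V : Type} [Fintype V] [DecidableEq V] [MeasurableSpace V] [DiscreteMeasurableSpace V]
  (G : SimpleGraph V) [DecidableRel G.Adj]

/-- visited set up to time `t` -/
def vis (t : ℕ) (w : ℕ → V) : Finset V := (range (t + 1)).image w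

theorem det_vis (t : ℕ) (P : Finset V → Prop) : Det t {w : ℕ → V | P (vis t w)} := by
  intro w w' h hw
  have : vis t w' = vis t w := by
    unfold vis
    refine Finset.image_congr ?_
    intro s hs
    rw [Finset.coe_range, Set.mem_Iio] at hs
    exact (h s (by omega)).symm
  show P (vis t w')
  rw [this]
  exact hw

theorem vis_eq {y : V} {w : ℕ → V} (h : w 0 = y) (t : ℕ) :
    vis t w = insert y ((range t).image (sh 1 w)) := by
  ext v
  unfold vis
  simp only [Finset.mem_image, Finset.mem_range, Finset.mem_insert]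
  constructor
  · rintro ⟨s, hs, rfl⟩
    rcases Nat.eq_zero_or_pos s with h0 | h0
    · left; rw [h0, h]
    · right
      exact ⟨s - 1, by omega, by show w (1 + (s - 1)) = w s; congr 1; omega⟩
  · rintro (h1 | ⟨s, hs, h1⟩)
    · exact ⟨0, by omega, by rw [h1, h]⟩
    · exact ⟨1 + s, by omega, h1⟩

/-- finite additivity -/
theorem Pr_sum_fib (x : V) (Φ : (ℕ → V) → Finset V) (hΦ : ∀ S, MeasurableSet {w | Φ w = S})
    (P : Finset V → Prop) [DecidablePred P] :
    ∑ S : Finset V, (if P S then (1 : ℝ) else 0) * Pr G x {w | Φ w = S} = Pr G x {w | P (Φ w)} := by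
  have h1 : {w : ℕ → V | P (Φ w)} = ⋃ S ∈ (univ : Finset (Finset V)).filter P, {w | Φ w = S} := by
    ext w
    simp
  rw [h1]
  unfold Pr
  rw [measureReal_biUnion_finset]
  · rw [Finset.sum_filter]
    refine Finset.sum_congr rfl fun S _ => ?_
    split_ifs <;> simp
  · intro S _ T _ hST
    refine Set.disjoint_left.2 fun w hw hw' => hST ?_
    exact hw.symm.trans hw'
  · exact fun S _ => hΦ S

theorem ex_eq (h : S_One) (hG : G.Connected) (h2 : 2 ≤ Fintype.card V) (F : Finset V → ℝ) :
    ∀ (t : ℕ) (S : Finset V) (x : V), ex G t F S x =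
      ∑ S' : Finset V, F S' * Pr G x {w | S ∪ (range t).image (sh 1 w) = S'} := by
  intro t
  induction t with
  | zero =>
    intro S x
    rw [Finset.sum_eq_single S]
    · have : {w : ℕ → V | S ∪ (range 0).image (sh 1 w) = S} = Set.univ := by
        ext w; simp
      rw [this, Pr_univ, mul_one]
      rfl
    · intro S' _ hS
      have : {w : ℕ → V | S ∪ (range 0).image (sh 1 w) = S'} = ∅ := by
        ext w
        simp [hS.symm]
      rw [this]
      unfold Pr
      rw [measureReal_empty, mul_zero]
    · intro h; exact absurd (Finset.mem_univ S) h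
  | succ t ih =>
    intro S x
    show (∑ y ∈ G.neighborFinset x, ex G t F (insert y S) y) / (G.degree x : ℝ) = _
    have h1 : ∀ S' : Finset V, Pr G x {w | S ∪ (range (t + 1)).image (sh 1 w) = S'} =
        (∑ y ∈ G.neighborFinset x, Pr G y {w | S ∪ vis t w = S'}) / (G.degree x : ℝ) := by
      intro S'
      have hm : MeasurableSet {w : ℕ → V | S ∪ vis t w = S'} :=
        (det_vis t (fun T => S ∪ T = S')).measurableSet
      rw [← (h V G hG h2 x).2 _ hm]
      rfl
    have h3 : ∀ y : V, ex G t F (insert y S) y =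
        ∑ S' : Finset V, F S' * Pr G y {w | S ∪ vis t w = S'} := by
      intro y
      rw [ih]
      refine Finset.sum_congr rfl fun S' _ => ?_
      congr 1
      refine Pr_ae_congr G y ?_
      filter_upwards [(h V G hG h2 y).1] with w hw
      show (insert y S ∪ (range t).image (sh 1 w) = S') ↔ (S ∪ vis t w = S')
      rw [vis_eq hw, Finset.insert_union, Finset.union_insert]
    rw [Finset.sum_congr rfl fun y _ => h3 y, Finset.sum_comm]
    rw [Finset.sum_div]
    refine Finset.sum_congr rfl fun S' _ => ?_
    rw [← Finset.mul_sum, h1 S']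
    ring

theorem ex_eq' (h : S_One) (hG : G.Connected) (h2 : 2 ≤ Fintype.card V) (F : Finset V → ℝ)
    (t : ℕ) (r : V) : ex G t F {r} r = ∑ S' : Finset V, F S' * Pr G r {w | vis t w = S'} := by
  rw [ex_eq G h hG h2]
  refine Finset.sum_congr rfl fun S' _ => ?_
  congr 1
  refine Pr_ae_congr G r ?_
  filter_upwards [(h V G hG h2 r).1] with w hw
  show ({r} ∪ (range t).image (sh 1 w) = S') ↔ (vis t w = S')
  rw [vis_eq hw, Finset.insert_eq]

end

/-- JOB CTL -/
theorem t_CTL (h : S_One) : S_Ctl := by
  intro V _ _ _ _ G _ hG h2 r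
  have hcard : (2 : ℝ) ≤ Fintype.card V := by exact_mod_cast h2
  have hn : 0 < nn G := by unfold nn; linarith
  constructor
  · unfold CT
    refine tsum_congr fun t => ?_
    rw [Lw_eq_ofReal, ex_eq' G h hG h2]
    congr 1
    have h1 := Pr_sum_fib G r (vis t) (fun S => (det_vis t (fun T => T = S)).measurableSet)
      (fun S => S ≠ univ)
    have h3 : {w : ℕ → V | vis t w ≠ univ} = NC t := by
      ext w
      unfold NC vis
      simp only [Set.mem_setOf_eq, ne_eq, Finset.eq_univ_iff_forall, Finset.mem_image,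
        Finset.mem_range, not_forall, not_exists, not_and]
      constructor
      · rintro ⟨y, hy⟩
        exact ⟨y, fun s hs => hy s (by omega)⟩
      · rintro ⟨y, hy⟩
        exact ⟨y, fun s hs => hy s (by omega)⟩
    rw [← h3, ← h1]
    refine Finset.sum_congr rfl fun S _ => ?_
    by_cases hS : S = univ <;> simp [hS]
  · unfold cc
    have key : ∀ t : ℕ, ENNReal.ofReal (ex G t
        (fun S => 1 - ((S.erase r).card : ℝ) / ((Fintype.card V : ℝ) - 1)) {r} r) =
        (∑ y : V, Lw G r {w | ∀ s ≤ t, w s ≠ y}) / ENNReal.ofReal (nn G) := by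
      intro t
      rw [ex_eq' G h hG h2]
      have h1 : ∑ S' : Finset V, (1 - ((S'.erase r).card : ℝ) / ((Fintype.card V : ℝ) - 1)) *
          Pr G r {w | vis t w = S'} = (∑ y : V, Pr G r {w | ∀ s ≤ t, w s ≠ y}) / nn G := by
        have h3 : ∀ y : V, Pr G r {w | ∀ s ≤ t, w s ≠ y} =
            ∑ S : Finset V, (if y ∉ S then (1 : ℝ) else 0) * Pr G r {w | vis t w = S} := by
          intro y
          rw [Pr_sum_fib G r (vis t) (fun S => (det_vis t (fun T => T = S)).measurableSet)
            (fun S => y ∉ S)]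
          congr 1
          ext w
          unfold vis
          simp only [Set.mem_setOf_eq, Finset.mem_image, Finset.mem_range, not_exists, not_and]
          constructor
          · intro h s hs; exact h s (by omega)
          · intro h s hs; exact h s (by omega)
        rw [Finset.sum_congr rfl fun y _ => h3 y, Finset.sum_comm, Finset.sum_div]
        refine Finset.sum_congr rfl fun S _ => ?_
        by_cases hr : r ∈ S
        · rw [← Finset.sum_mul]
          have h4 : ∑ y : V, (if y ∉ S then (1 : ℝ) else 0) = (Fintype.card V : ℝ) - S.card := by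
            have h5 : ∑ y : V, (if y ∉ S then (1 : ℝ) else 0) = ((univ.filter (fun y => y ∉ S)).card : ℝ) := by
              rw [Finset.sum_boole]
            rw [h5]
            have h6 : (univ.filter (fun y => y ∉ S)) = Sᶜ := by
              ext y; simp
            rw [h6, Finset.card_compl, Nat.cast_sub (Finset.card_le_univ S)]
          rw [h4, Finset.card_erase_of_mem hr]
          have h7 : 1 ≤ S.card := Finset.card_pos.2 ⟨r, hr⟩
          rw [Nat.cast_sub h7]
          unfold nn at hn ⊢
          have := hn.ne'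
          field_simp
          push_cast
          ring
        · have h4 : Pr G r {w | vis t w = S} = 0 := by
            refine Pr_of_ae_not G r ?_
            filter_upwards [(h V G hG h2 r).1] with w hw hw2
            have hw2 : vis t w = S := hw2
            rw [vis_eq hw] at hw2
            exact hr (by rw [← hw2]; exact Finset.mem_insert_self _ _)
          simp [h4]
      rw [h1, ENNReal.ofReal_div_of_pos hn, ENNReal.ofReal_sum_of_nonneg fun y _ => Pr_nonneg G r _]
      congr 1
      exact Finset.sum_congr rfl fun y _ => (Lw_eq_ofReal G r _).symm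
    rw [tsum_congr key]
    simp only [div_eq_mul_inv]
    rw [ENNReal.tsum_mul_right]
    congr 1
    exact Summable.tsum_finsetSum fun y _ => ENNReal.summable

end Pool.Agent.Q130.CV
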